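import Mathlib
import Pool.Agent.Run7.h523.FM.Cell

set_option autoImplicit false

/-!
# MP_5168f5_an: the Kakeya maximal estimate for selections of tubes which form wave fronts

Points of `ℝ^n`, `n = d + 1`, are written as `(x, s)`, `x ∈ ℝ^d`, `s ∈ ℝ`; the direction `(v, 1)` is
described by its slope `v ∈ ℝ^d`, `|v| ≤ 1`.  A selection assigns to every slope `v` the segment
`{(a v + s • v, s) : τ v ≤ s ≤ τ v + 1}` and the tube of radius `δ` around it.  It is a *front selection*
at scale `ρ` if for two slopes of the same norm and at distance `≤ ρ`, any two points of the two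
segments at distance `≤ ρ` satisfy `|v| |s - s'| ≤ |x - x'|`: locally no point of a segment is reached
earlier along another segment of the same speed.
-/

open Set MeasureTheory Metric
open scoped ENNReal

namespace Pool.Agent.Results.MP_5168f5_an.FrontMaximal

/-- The tube of radius `δ` around the segment `{(a + s • v, s) : τ ≤ s ≤ τ + 1}` of slope `v`. -/
def tube {d : ℕ} (δ : ℝ) (a v : EuclideanSpace ℝ (Fin d)) (τ : ℝ) :
    Set (EuclideanSpace ℝ (Fin d) × ℝ) :=
  {y | y.2 ∈ Icc τ (τ + 1) ∧ ‖y.1 - (a + y.2 • v)‖ ≤ δ}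

/-- The average of `|f|` over the tube of radius `δ` selected for the slope `v`. -/
noncomputable def average {d : ℕ} (δ : ℝ) (a : EuclideanSpace ℝ (Fin d) → EuclideanSpace ℝ (Fin d))
    (τ : EuclideanSpace ℝ (Fin d) → ℝ) (f : EuclideanSpace ℝ (Fin d) × ℝ → ℝ)
    (v : EuclideanSpace ℝ (Fin d)) : ℝ≥0∞ :=
  (∫⁻ y in tube δ (a v) v (τ v), ‖f y‖ₑ) / volume (tube δ (a v) v (τ v))

/-- Measurable selections of segments which satisfy the front condition at the scale `ρ`. -/
structure IsFrontSelection {d : ℕ} (ρ : ℝ)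
    (a : EuclideanSpace ℝ (Fin d) → EuclideanSpace ℝ (Fin d))
    (τ : EuclideanSpace ℝ (Fin d) → ℝ) : Prop where
  measurable_a : Measurable a
  measurable_τ : Measurable τ
  front : ∀ v w : EuclideanSpace ℝ (Fin d), ‖v‖ ≤ 1 → ‖v‖ = ‖w‖ → ‖v - w‖ ≤ ρ →
    ∀ s ∈ Icc (τ v) (τ v + 1), ∀ s' ∈ Icc (τ w) (τ w + 1), |s - s'| ≤ ρ →
      ‖(a v + s • v) - (a w + s' • w)‖ ≤ ρ →
      ‖v‖ * |s - s'| ≤ ‖(a v + s • v) - (a w + s' • w)‖

/-- The maximal estimate for front selections in `ℝ^n`, `n = d + 1 ≥ 3`, for all `p > 2`: the `L^p` norm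
over the slopes `|v| ≤ 1` of the averages over the selected tubes is at most
`C δ^(-max(n/p - 1, 0)) (1 + log(1/δ))^(1 + 1/p) ‖f‖_p`, uniformly over all front selections at scale
`ρ`.  For `p = n` this is the estimate of Q1, with a power of the logarithm instead of `δ^(-ε)`. -/
theorem result {d : ℕ} (hd : 2 ≤ d) {p ρ : ℝ} (hp : 2 < p) (hρ : 0 < ρ) :
    ∃ C : ℝ, 0 < C ∧ ∀ (δ : ℝ), 0 < δ → δ ≤ 1 →
      ∀ (a : EuclideanSpace ℝ (Fin d) → EuclideanSpace ℝ (Fin d))
        (τ : EuclideanSpace ℝ (Fin d) → ℝ), IsFrontSelection ρ a τ →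
      ∀ f : EuclideanSpace ℝ (Fin d) × ℝ → ℝ, Measurable f →
        eLpNorm (average δ a τ f) (ENNReal.ofReal p)
            (volume.restrict (closedBall (0 : EuclideanSpace ℝ (Fin d)) 1)) ≤
          ENNReal.ofReal (C * δ ^ (-max (((d : ℝ) + 1) / p - 1) 0) *
            (1 + Real.log (1 / δ)) ^ (1 + 1 / p)) * eLpNorm f (ENNReal.ofReal p) volume := by
  have hp0 : 0 < p := by linarith
  obtain ⟨C, hC, h⟩ := Run7.h523.FM.ball_est (d := d) (by omega) hp hρ
  have hvb := Run7.h523.FM.vb_pos (d := d)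
  refine ⟨C ^ (1 / p) / Run7.h523.FM.vb d, by positivity, ?_⟩
  intro δ hδ hδ1 a τ H f hf
  have hlog : 0 ≤ Real.log (1 / δ) := Real.log_nonneg (by rw [le_div_iff₀ hδ]; linarith)
  have h1 := h δ hδ hδ1 a τ f H.measurable_a H.measurable_τ H.front hf
  set L : ℝ := 1 + Real.log (1 / δ) with hL
  set e : ℝ := max ((d : ℝ) + 1 - p) 0 with he
  have hep : max (((d : ℝ) + 1) / p - 1) 0 = e / p := by
    rw [he, div_sub_one hp0.ne']
    rcases le_total ((d : ℝ) + 1 - p) 0 with h0 | h0
    · rw [max_eq_right h0, max_eq_right (div_nonpos_of_nonpos_of_nonneg h0 hp0.le), zero_div]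
    · rw [max_eq_left h0, max_eq_left (div_nonneg h0 hp0.le)]
  have hvol : ∀ v, volume (tube δ (a v) v (τ v)) = ENNReal.ofReal (δ ^ d * Run7.h523.FM.vb d) := by
    intro v
    have := Run7.h523.FM.vol_slab v (a v) hδ.le (c := τ v) (c' := τ v + 1) (by linarith)
    rw [add_sub_cancel_left, one_mul] at this
    exact this
  have hA : ∀ v, average δ a τ f v = Run7.h523.FM.Av δ a τ 0 1 (fun y => ENNReal.ofReal |f y|) v /
      ENNReal.ofReal (δ ^ d * Run7.h523.FM.vb d) := by
    intro v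
    unfold average
    rw [hvol]
    congr 1
    unfold Run7.h523.FM.Av Run7.h523.FM.T tube
    rw [add_zero]
    simp only [Real.enorm_eq_ofReal_abs]
  have hp' : ENNReal.ofReal p ≠ 0 := by simpa using hp0
  rw [eLpNorm_eq_lintegral_rpow_enorm_toReal hp' ENNReal.ofReal_ne_top,
    eLpNorm_eq_lintegral_rpow_enorm_toReal hp' ENNReal.ofReal_ne_top, ENNReal.toReal_ofReal hp0.le]
  simp only [enorm_eq_self, hA, Real.enorm_eq_ofReal_abs]
  set X := ∫⁻ y, ENNReal.ofReal |f y| ^ p with hX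
  have hY0 : 0 < δ ^ d * Run7.h523.FM.vb d := by positivity
  have h2 : ∫⁻ v in closedBall (0 : EuclideanSpace ℝ (Fin d)) 1,
      (Run7.h523.FM.Av δ a τ 0 1 (fun y => ENNReal.ofReal |f y|) v /
        ENNReal.ofReal (δ ^ d * Run7.h523.FM.vb d)) ^ p ≤
      ENNReal.ofReal (C * (δ ^ (-e)) * L ^ (p + 1) / Run7.h523.FM.vb d ^ p) * X := by
    have h3 : ∀ v, (Run7.h523.FM.Av δ a τ 0 1 (fun y => ENNReal.ofReal |f y|) v /
        ENNReal.ofReal (δ ^ d * Run7.h523.FM.vb d)) ^ p =
        ENNReal.ofReal ((δ ^ d * Run7.h523.FM.vb d) ^ (-p)) *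
          Run7.h523.FM.Av δ a τ 0 1 (fun y => ENNReal.ofReal |f y|) v ^ p := by
      intro v
      rw [div_eq_mul_inv, ENNReal.mul_rpow_of_nonneg _ _ hp0.le, mul_comm, ENNReal.inv_rpow,
        ENNReal.ofReal_rpow_of_pos hY0, ← ENNReal.ofReal_inv_of_pos (by positivity),
        Real.rpow_neg hY0.le]
    simp_rw [h3]
    rw [lintegral_const_mul' _ _ ENNReal.ofReal_ne_top]
    calc _ ≤ ENNReal.ofReal ((δ ^ d * Run7.h523.FM.vb d) ^ (-p)) *
          (ENNReal.ofReal (C * (δ ^ ((d : ℝ) * p) * δ ^ (-e)) * L ^ (p + 1)) * X) := by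
          gcongr
      _ = _ := by
          rw [← mul_assoc, ← ENNReal.ofReal_mul (by positivity)]
          congr 2
          rw [Real.rpow_neg hY0.le, Real.mul_rpow (by positivity) (by positivity),
            ← Real.rpow_natCast δ d, ← Real.rpow_mul hδ.le]
          field_simp
  calc (∫⁻ v in closedBall (0 : EuclideanSpace ℝ (Fin d)) 1,
      (Run7.h523.FM.Av δ a τ 0 1 (fun y => ENNReal.ofReal |f y|) v /
        ENNReal.ofReal (δ ^ d * Run7.h523.FM.vb d)) ^ p) ^ (1 / p)
      ≤ (ENNReal.ofReal (C * (δ ^ (-e)) * L ^ (p + 1) / Run7.h523.FM.vb d ^ p) * X) ^ (1 / p) := by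
        gcongr
    _ = _ := by
        rw [ENNReal.mul_rpow_of_nonneg _ _ (by positivity), ENNReal.ofReal_rpow_of_nonneg
          (by positivity) (by positivity)]
        congr 2
        rw [Real.div_rpow (by positivity) (by positivity), ← Real.rpow_mul hvb.le,
          mul_one_div_cancel hp0.ne', Real.rpow_one, Real.mul_rpow (by positivity) (by positivity),
          Real.mul_rpow (by positivity) (by positivity), ← Real.rpow_mul hδ.le,
          ← Real.rpow_mul (by positivity), hep]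
        have e1 : -e * (1 / p) = -(e / p) := by ring
        have e2 : (p + 1) * (1 / p) = 1 + 1 / p := by field_simp
        rw [e1, e2]
        ring

end Pool.Agent.Results.MP_5168f5_an.FrontMaximal
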