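import Pool.Agent.Run7.h750.PD5

set_option autoImplicit false

/-!
# MP_5168f5: the Kakeya maximal function, positive definite functions and convolutions

1. For a nonnegative even locally integrable positive definite function `g` the Kakeya maximal
   function of every `f` with `|f| ≤ g` is at most `2^n` times the average of `g` over the doubled
   tube centred at the origin, and the estimate of the Kakeya maximal conjecture holds at the
   critical exponent `n` (with a power of the logarithm), with the norm of `g` on the right.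
2. The estimate holds at the critical exponent for all functions bounded by a convolution `h₁ * h₂`
   with the product of the norms of `h₁, h₂` in `L^(2n/(n+1))` on the right.  (By Young's inequality
   this is a pair of exponents with `1/p₁ + 1/p₂ = 1 + 1/n`, the middle between the pairs `(1, n)`
   and `(n, 1)`, for which the same statement is the conjecture itself.)
3. The estimate holds for the set of the points `x` which lie in at least `η |A|²` additive
   quadruples `x + a = b + c` with `a, b, c` in a set `A` of finite measure.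
-/

open MeasureTheory Set Filter Topology ENNReal NNReal Metric

namespace Pool.Agent.Results.MP_5168f5_an.PositiveDefiniteFunctions

/-- The closed tube of length `1` and radius `δ` with centre `b` and axis direction `e`. -/
def tube {n : ℕ} (δ : ℝ) (e b : EuclideanSpace ℝ (Fin n)) : Set (EuclideanSpace ℝ (Fin n)) :=
  {y | |inner ℝ (y - b) e| ≤ 1 / 2 ∧ ‖(y - b) - (inner ℝ (y - b) e : ℝ) • e‖ ≤ δ}

/-- The tube of length `2` and radius `2δ` centred at the origin. -/
def doubleTube {n : ℕ} (δ : ℝ) (e : EuclideanSpace ℝ (Fin n)) : Set (EuclideanSpace ℝ (Fin n)) :=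
  {y | |inner ℝ y e| ≤ 1 ∧ ‖y - (inner ℝ y e : ℝ) • e‖ ≤ 2 * δ}

/-- The Kakeya maximal function. -/
noncomputable def kakeyaMax {n : ℕ} (δ : ℝ) (f : EuclideanSpace ℝ (Fin n) → ℝ)
    (e : EuclideanSpace ℝ (Fin n)) : ℝ≥0∞ :=
  ⨆ a : EuclideanSpace ℝ (Fin n), (volume (tube δ e a))⁻¹ * ∫⁻ y in tube δ e a, ‖f y‖ₑ

/-- The surface measure of the unit sphere. -/
noncomputable def surf (n : ℕ) : Measure (sphere (0 : EuclideanSpace ℝ (Fin n)) 1) :=
  (volume : Measure (EuclideanSpace ℝ (Fin n))).toSphere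

/-- `g` is positive definite, in the integrated sense: `∬ u(x) u(y) g(x - y) dx dy ≥ 0` for all
bounded measurable real functions `u` with bounded support. -/
def PosDef {n : ℕ} (g : EuclideanSpace ℝ (Fin n) → ℝ) : Prop :=
  ∀ u : EuclideanSpace ℝ (Fin n) → ℝ, Measurable u → (∃ M : ℝ, ∀ x, |u x| ≤ M) →
    Bornology.IsBounded (Function.support u) → 0 ≤ ∫ x, ∫ y, u x * u y * g (x - y)

/-- The convolution of two nonnegative functions. -/
noncomputable def conv {n : ℕ} (h₁ h₂ : EuclideanSpace ℝ (Fin n) → ℝ≥0∞)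
    (x : EuclideanSpace ℝ (Fin n)) : ℝ≥0∞ := ∫⁻ w, h₁ (x - w) * h₂ w

/-- The measure of the pairs `(b, c) ∈ A × A` with `b + c - x ∈ A`, that is, of the additive
quadruples `x + a = b + c` with `a, b, c ∈ A`. -/
noncomputable def quads {n : ℕ} (A : Set (EuclideanSpace ℝ (Fin n)))
    (x : EuclideanSpace ℝ (Fin n)) : ℝ≥0∞ :=
  ((volume : Measure (EuclideanSpace ℝ (Fin n))).prod volume)
    {p | p.1 ∈ A ∧ p.2 ∈ A ∧ p.1 + p.2 - x ∈ A}

/-- `∫ (f^*_δ)^n` over the sphere. -/
noncomputable def kmaxInt {n : ℕ} (δ : ℝ) (f : EuclideanSpace ℝ (Fin n) → ℝ) : ℝ≥0∞ :=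
  ∫⁻ e, kakeyaMax δ f (e : EuclideanSpace ℝ (Fin n)) ^ n ∂(surf n)

/-- `C (1 + log (1/δ))^(n-1)`. -/
noncomputable def bound (n : ℕ) (C δ : ℝ) : ℝ≥0∞ :=
  ENNReal.ofReal (C * (1 + Real.log (1 / δ)) ^ (n - 1))

/-- Nonnegative measurable locally integrable even positive definite functions. -/
def Adm {n : ℕ} (g : EuclideanSpace ℝ (Fin n) → ℝ) : Prop :=
  Measurable g ∧ (∀ x, 0 ≤ g x) ∧ LocallyIntegrable g volume ∧ (∀ x, g (-x) = g x) ∧ PosDef g

/-- The pointwise bound of the Kakeya maximal function of `f` by `2^n` times the average of `g` over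
the doubled centred tube. -/
def Pointwise {n : ℕ} (δ : ℝ) (f g : EuclideanSpace ℝ (Fin n) → ℝ) : Prop :=
  ∀ e : EuclideanSpace ℝ (Fin n), ‖e‖ = 1 →
    kakeyaMax δ f e ≤ 2 ^ n * ((volume (tube δ e 0))⁻¹ * ∫⁻ y in doubleTube δ e, ‖g y‖ₑ)

/-- The `n`-th power of the norm of `h` in `L^p`, `p = 2n/(n+1)`. -/
noncomputable def normPow {n : ℕ} (h : EuclideanSpace ℝ (Fin n) → ℝ≥0∞) : ℝ≥0∞ :=
  (∫⁻ x, h x ^ (2 * (n : ℝ) / (n + 1))) ^ (((n : ℝ) + 1) / 2)

/-- The points in at least `η |A|²` additive quadruples. -/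
noncomputable def popular {n : ℕ} (η : ℝ) (A : Set (EuclideanSpace ℝ (Fin n))) :
    Set (EuclideanSpace ℝ (Fin n)) :=
  {x | ENNReal.ofReal η * volume A ^ 2 ≤ quads A x}

/-- **The Kakeya maximal function at the critical exponent `n` for positive definite functions,
for convolutions and for the points in many additive quadruples.** -/
theorem result (n : ℕ) (hn : 2 ≤ n) : ∃ C : ℝ, 0 < C ∧ ∀ δ : ℝ, 0 < δ → δ < 1 →
    (∀ f g : EuclideanSpace ℝ (Fin n) → ℝ, Adm g → (∀ᵐ x, |f x| ≤ g x) →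
      Pointwise δ f g ∧ kmaxInt δ f ≤ bound n C δ * ∫⁻ y, ‖g y‖ₑ ^ n) ∧
    (∀ (f : EuclideanSpace ℝ (Fin n) → ℝ) (h₁ h₂ : EuclideanSpace ℝ (Fin n) → ℝ≥0∞),
      Measurable h₁ → Measurable h₂ → (∀ᵐ x, ‖f x‖ₑ ≤ conv h₁ h₂ x) →
        kmaxInt δ f ≤ bound n C δ * (normPow h₁ * normPow h₂)) ∧
    (∀ (A : Set (EuclideanSpace ℝ (Fin n))) (η : ℝ), MeasurableSet A → volume A ≠ 0 →
      volume A ≠ ∞ → 0 < η →
        kmaxInt δ ((popular η A).indicator 1) ≤
          bound n C δ * (ENNReal.ofReal (η⁻¹ ^ n) * volume A)) := by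
  obtain ⟨m, rfl⟩ : ∃ m, n = m + 1 := ⟨n - 1, by omega⟩
  obtain ⟨C, hC, h⟩ := Run7.h750.PD.final m
  refine ⟨C, hC, fun δ hδ hδ1 => ?_⟩
  obtain ⟨h1, h2⟩ := h δ hδ hδ1
  have hL : 0 ≤ Real.log (1 / δ) := Real.log_nonneg (by rw [le_div_iff₀ hδ]; linarith)
  have hen : ∀ g : EuclideanSpace ℝ (Fin (m + 1)) → ℝ, (∀ x, 0 ≤ g x) → ∀ x,
      ‖g x‖ₑ = ENNReal.ofReal (g x) := fun g hg0 x => Real.enorm_of_nonneg (hg0 x)
  unfold kmaxInt bound
  rw [Nat.add_sub_cancel]
  refine ⟨?_, ?_, ?_⟩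
  · rintro f g ⟨hg, hg0, hgl, hev, hpd⟩ hf
    have hf' : ∀ᵐ x, ‖f x‖ₑ ≤ ENNReal.ofReal (g x) := by
      filter_upwards [hf] with x hx
      rw [← ofReal_norm, Real.norm_eq_abs]
      exact ENNReal.ofReal_le_ofReal hx
    constructor
    · intro e he
      simp_rw [hen g hg0]
      have h3 := Run7.h750.PD.pd_point δ hδ e he hg hg0 hgl hev hpd f hf'
      rw [Run7.h750.PD.T0_eq] at h3
      exact h3
    · simp_rw [hen g hg0]
      exact h1 g hg hg0 hgl hev hpd f hf'
  · intro f h₁ h₂ hh₁ hh₂ hf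
    have h3 := h2 h₁ h₂ hh₁ hh₂ f hf
    have e1 : 2 * ((m + 1 : ℕ) : ℝ) / (((m + 1 : ℕ) : ℝ) + 1) =
        2 * ((m:ℝ) + 1) / ((m:ℝ) + 2) := by push_cast; ring
    have e2 : (((m + 1 : ℕ) : ℝ) + 1) / 2 = ((m:ℝ) + 2) / 2 := by push_cast; ring
    unfold normPow
    rw [e1, e2]
    exact h3
  · intro A η hA h0 ht hη
    exact Run7.h750.PD.quad_final m δ _ h2 A hA h0 ht η hη

end Pool.Agent.Results.MP_5168f5_an.PositiveDefiniteFunctions
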