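import Pool.Agent.Run7.h860.Kk.Lines

set_option autoImplicit false

/-!
# MP_5168f5: Kakeya maximal estimates for classes of lines definable in o-minimal structures

Work in `ℝ^{d+1} = ℝ^d × ℝ` (`Space d`), `n = d + 1 ≥ 2`.  For `v` in the closed unit ball of `ℝ^d`
and `a ∈ ℝ^d` consider the line `{(a + s v, s) : s ∈ ℝ}`; its direction is `(v, 1)`.
For a choice `b : ℝ^d → ℝ^d` of lines, `lineMax δ b f v` is the supremum of the averages of `|f|`
over the `δ`-tubes of length one with axis on the line number `v`, `{(b v + s v, s) : s ∈ ℝ}`.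

Let an o-minimal expansion of the field of real numbers be given (for instance the real field
itself, the field with restricted analytic functions, the field with the exponential function or
with all Pfaffian functions), and a definable family of classes of lines: for each parameter
`s ∈ ℝ^m` a set of lines, such that the relation between the parameter and the line is definable.
Then there is a number `N` such that for all parameters `s`:

* one can choose from the class number `s` one line in each direction for which there is such a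
  line, in such a way that the Kakeya maximal estimate in `L^p`, `p ≥ n`, holds with the constant
  `C N`, where `C` depends on `n` and `p` only; more generally it holds for all choices of lines
  that differ from the chosen ones by at most the width `δ` of the tubes.  The choice does not
  depend on `δ` or on `f`, and there is no condition on `f`;
* if the class number `s` has finitely many lines in each direction, then the estimate holds for
  all measurable choices of lines from the class, whatever their jumps, and more generally for all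
  measurable choices of lines within `δ` of the class.
-/

open MeasureTheory Set Filter Topology ENNReal NNReal Metric

namespace Pool.Agent.Results.MP_5168f5_an.TameLineClasses

open Pool.Agent.H803R2.KakFTO Run7.h860.Om Run7.h860.Kk

universe u v

/-- The structure on `ℝ` is an o-minimal expansion of the field of real numbers: the order, the
addition and the multiplication are definable, and every definable set of real numbers is the union
of finitely many order connected sets, that is, of points and intervals.  (Definable means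
definable with parameters.) -/
structure OMinimal (L : FirstOrder.Language.{u, v}) [L.Structure ℝ] : Prop where
  /-- the order is definable -/
  lt : (univ : Set ℝ).Definable L {x : Fin 2 → ℝ | x 0 < x 1}
  /-- the addition is definable -/
  add : (univ : Set ℝ).Definable L {x : Fin 3 → ℝ | x 0 + x 1 = x 2}
  /-- the multiplication is definable -/
  mul : (univ : Set ℝ).Definable L {x : Fin 3 → ℝ | x 0 * x 1 = x 2}
  /-- definable sets of real numbers are finite unions of points and intervals -/
  finite_union : ∀ S : Set ℝ, (univ : Set ℝ).Definable L {x : Fin 1 → ℝ | x 0 ∈ S} →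
    ∃ F : Set (Set ℝ), F.Finite ∧ (∀ I ∈ F, I.OrdConnected) ∧ S = ⋃₀ F

/-- The lines of direction `(v, 1)` of the class with parameter `s`, as the set of their points of
height zero. -/
def lines {m d : ℕ} (G : Set (Fin m ⊕ Fin d ⊕ Fin d → ℝ)) (s : Fin m → ℝ) (v : Vec d) :
    Set (Vec d) :=
  {a | (Sum.elim s (Sum.elim v.ofLp a.ofLp) : Fin m ⊕ Fin d ⊕ Fin d → ℝ) ∈ G}

/-- The `v` in the unit ball such that the class with parameter `s` contains lines of direction
`(v, 1)`. -/
def directions {m d : ℕ} (G : Set (Fin m ⊕ Fin d ⊕ Fin d → ℝ)) (s : Fin m → ℝ) : Set (Vec d) :=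
  {v | v ∈ closedBall 0 1 ∧ (lines G s v).Nonempty}

/-- The loss: `(1 + log (1/δ))^(n-1)` at the critical exponent `p = n`, none for `p > n`. -/
noncomputable def loss (d : ℕ) (p δ : ℝ) : ℝ :=
  if p = d + 1 then (1 + Real.log (1 / δ)) ^ d else 1

/-- The Kakeya maximal estimate in `L^p` for the choice `b` of lines, the directions in `B` and
tubes of radius `δ`, with the constant `A`. -/
def Estimate (d : ℕ) (p A δ : ℝ) (B : Set (Vec d)) (b : Vec d → Vec d) : Prop :=
  ∀ f : Space d → ℝ, AEMeasurable f volume →
    ∫⁻ v in B, lineMax δ b f v ^ p ≤ ENNReal.ofReal (A * loss d p δ) * ∫⁻ y, ‖f y‖ₑ ^ p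

/-- **Kakeya maximal estimates for definable classes of lines**, `n = d + 1 ≥ 2`, `p ≥ n`. -/
theorem result (d : ℕ) (hd : 1 ≤ d) (p : ℝ) (hp : (d : ℝ) + 1 ≤ p) :
    ∃ C : ℝ, 0 < C ∧ ∀ (L : FirstOrder.Language.{u, v}) [L.Structure ℝ], OMinimal L →
      ∀ (m : ℕ) (G : Set (Fin m ⊕ Fin d ⊕ Fin d → ℝ)), (univ : Set ℝ).Definable L G →
      ∃ N : ℕ, ∀ s : Fin m → ℝ,
        (∃ g : Vec d → Vec d, (∀ v, (lines G s v).Nonempty → g v ∈ lines G s v) ∧
          ∀ (δ : ℝ) (b : Vec d → Vec d), 0 < δ → δ < 1 →
            (∀ v ∈ directions G s, ‖b v - g v‖ ≤ δ) →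
            Estimate d p (C * N) δ (directions G s) b) ∧
        ((∀ v, (lines G s v).Finite) →
          ∀ (δ : ℝ) (b : Vec d → Vec d), 0 < δ → δ < 1 → Measurable b →
            (∀ v ∈ directions G s, ∃ a ∈ lines G s v, ‖b v - a‖ ≤ δ) →
            Estimate d p (C * N) δ (directions G s) b) := by
  refine ⟨cK d hd p hp, cK_pos d hd p hp, ?_⟩
  intro L _ hL m G hG
  have : OMin L := ⟨hL.lt, hL.add, hL.mul, hL.finite_union⟩
  have hGD : DPred L (fun z : Fin m ⊕ Fin d ⊕ Fin d → ℝ => z ∈ G) := hG
  have helim : DFun L (fun p : ((Fin m → ℝ) × (Fin d → ℝ)) × (Fin d → ℝ) =>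
      (Sum.elim p.1.1 (Sum.elim p.1.2 p.2) : Fin m ⊕ Fin d ⊕ Fin d → ℝ)) := by
    refine DFun.pi fun i => ?_
    rcases i with i | i | i
    · simp only [Sum.elim_inl]; fun_prop
    · simp only [Sum.elim_inl, Sum.elim_inr]; fun_prop
    · simp only [Sum.elim_inr]; fun_prop
  set Q : Set (((Fin m → ℝ) × (Fin d → ℝ)) × (Fin d → ℝ)) :=
    {p | (Sum.elim p.1.1 (Sum.elim p.1.2 p.2) : Fin m ⊕ Fin d ⊕ Fin d → ℝ) ∈ G} with hQ
  have hQD : DPred L (fun p => p ∈ Q) := hGD.mem helim
  obtain ⟨K, q, hq, hqm, hqK⟩ := exists_branches (L := L) hQD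
  obtain ⟨N₁, -, hN₁⟩ := est_one (L := L) (Γ := Fin m → ℝ) hd hp (hq 0)
  obtain ⟨N₂, hN₂⟩ := est_branches (L := L) (Γ := Fin m → ℝ) hd hp K hq
  have hnull : ∀ s, NullMeasurableSet (directions G s) volume := by
    intro s
    set D : Set (Fin d → ℝ) := {v | ∃ a : Fin d → ℝ, ((s, v), a) ∈ Q} with hDdef
    have hDD : DPred L (fun v => v ∈ D) :=
      DPred.ex (hQD.mem (f := fun p : (Fin d → ℝ) × (Fin d → ℝ) => ((s, p.1), p.2)) (by fun_prop))
    have hdir : directions G s = closedBall 0 1 ∩ (fun v : Vec d => v.ofLp) ⁻¹' D := by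
      ext v
      constructor
      · rintro ⟨h1, a, ha⟩
        exact ⟨h1, a.ofLp, ha⟩
      · rintro ⟨h1, a, ha⟩
        exact ⟨h1, WithLp.toLp 2 a, ha⟩
    rw [hdir]
    exact measurableSet_closedBall.nullMeasurableSet.inter (nullMeasurableSet_ofLp (L := L) hDD)
  have hEst : ∀ (δ : ℝ) (B : Set (Vec d)) (b : Vec d → Vec d),
      Est d hd p hp (N₁ + N₂) δ B b → Estimate d p (cK d hd p hp * (N₁ + N₂ : ℕ)) δ B b :=
    fun δ B b h f hf => h f hf
  refine ⟨N₁ + N₂, fun s => ⟨⟨lift (fun v => q 0 (s, v)), ?_, ?_⟩, ?_⟩⟩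
  · rintro v ⟨a, ha⟩
    exact hqm (s, v.ofLp) ⟨a.ofLp, ha⟩
  · intro δ b hδ hδ1 hb
    exact hEst δ _ b ((hN₁ s (directions G s) (hnull s) (fun v hv => hv.1) δ b hδ hδ1 hb).mono
      (by omega) hδ hδ1)
  · intro hfin δ b hδ hδ1 hbm hb
    refine hEst δ _ b ((hN₂ s (directions G s) (hnull s) (fun v hv => hv.1) δ b hδ hδ1 hbm ?_).mono
      (by omega) hδ hδ1)
    intro v hv
    obtain ⟨a, ha, hba⟩ := hb v hv
    have hf' : {w | ((s, v.ofLp), w) ∈ Q}.Finite := by
      refine ((hfin v).image (fun a : Vec d => a.ofLp)).subset ?_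
      intro w hw
      exact ⟨WithLp.toLp 2 w, hw, rfl⟩
    obtain ⟨k, hk, hak⟩ := hqK (s, v.ofLp) hf' a.ofLp ha
    refine ⟨k, hk, ?_⟩
    have : a = lift (fun v => q k (s, v)) v := by
      show a = WithLp.toLp 2 (q k (s, v.ofLp))
      rw [← hak]
    rwa [← this]

end Pool.Agent.Results.MP_5168f5_an.TameLineClasses
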