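import Pool.Agent.Run7.h860.Kk.Slices

set_option autoImplicit false

/-!
# MP_5168f5: the Kakeya maximal function on functions with tame slices

Write points of `ℝ^n`, `n = d + 1`, as `(t, y)`, with height `t` and `y ∈ ℝ^d`.  Let an o-minimal
expansion of the field of real numbers be given (for instance the real field itself, the field with
the restricted analytic functions, the field with the exponential function or with all Pfaffian
functions), and a definable family of subsets of `ℝ^d`.  We consider functions `f` such that for every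
`r > 0` and almost every height `t` the set `{y : |f (t, y)| > r}` is covered by `N` members of the
family, whose total volume is at most `M` times its volume.  If these sets are unions of `N` members
this holds with `M = N`.  There is no condition on the dependence on `t` (and on `r`): `f` need not
be definable.  For functions `f` which belong to a definable family of functions on `ℝ^n` the
condition holds with `N = M = 1`.

For these functions the Kakeya maximal estimate holds

* for `p > n`, for directions with `|e 0| ≥ κ`, with no loss in the width `δ`, and also for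
  segments (width zero) which are chosen measurably;
* for the critical exponent `p = n`, for all directions, with a logarithmic loss.

The constants are products of a constant that depends on `n` and `p` only and of a number that
depends on the family only.  The supremum in the maximal function is over all tubes of the given
direction.
-/

open MeasureTheory Set ENNReal NNReal Metric

namespace Pool.Agent.Results.MP_5168f5_an.TameSlicedFunctions

open Run7.h860.Om

universe u v

/-- The structure on `ℝ` is an o-minimal expansion of the field of real numbers: the order, the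
addition and the multiplication are definable, and every definable set of real numbers is the union
of finitely many order connected sets, that is, of points and intervals.  (Definable means
definable with parameters.) -/
structure OMinimal (L : FirstOrder.Language.{u, v}) [L.Structure ℝ] : Prop where
  /-- the order is definable -/
  lt : (univ : Set ℝ).Definable L {x : Fin 2 → ℝ | x 0 < x 1}
  /-- the addition is definable -/
  add : (univ : Set ℝ).Definable L {x : Fin 3 → ℝ | x 0 + x 1 = x 2}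
  /-- the multiplication is definable -/
  mul : (univ : Set ℝ).Definable L {x : Fin 3 → ℝ | x 0 * x 1 = x 2}
  /-- definable sets of real numbers are finite unions of points and intervals -/
  finite_union : ∀ S : Set ℝ, (univ : Set ℝ).Definable L {x : Fin 1 → ℝ | x 0 ∈ S} →
    ∃ F : Set (Set ℝ), F.Finite ∧ (∀ I ∈ F, I.OrdConnected) ∧ S = ⋃₀ F

/-- The space `ℝ^(d+1)`. -/
abbrev Space (d : ℕ) : Type := EuclideanSpace ℝ (Fin (d + 1))

/-- The unit sphere of `ℝ^(d+1)`. -/
abbrev Direction (d : ℕ) : Type := sphere (0 : Space d) 1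

/-- The surface measure of the unit sphere. -/
noncomputable def surf (d : ℕ) : Measure (Direction d) :=
  (volume : Measure (Space d)).toSphere

/-- The slice of `A ⊆ ℝ^(d+1)` at height `t`: the set of all `y ∈ ℝ^d` with `(t, y) ∈ A`. -/
def slice {d : ℕ} (A : Set (Space d)) (t : ℝ) : Set (Fin d → ℝ) :=
  {y | WithLp.toLp 2 (Fin.cons t y : Fin (d + 1) → ℝ) ∈ A}

/-- The member with parameter `s ∈ ℝ^m` of the family of subsets of `ℝ^d` given by
`S ⊆ ℝ^m × ℝ^d`. -/
def member {m d : ℕ} (S : Set (Fin m ⊕ Fin d → ℝ)) (s : Fin m → ℝ) : Set (Fin d → ℝ) :=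
  {y | (Sum.elim s y : Fin m ⊕ Fin d → ℝ) ∈ S}

/-- The pieces: the empty set and the members of the family. -/
def Piece {m d : ℕ} (S : Set (Fin m ⊕ Fin d → ℝ)) (B : Set (Fin d → ℝ)) : Prop :=
  B = ∅ ∨ ∃ s : Fin m → ℝ, B = member S s

/-- `A` is covered by `N` pieces whose volumes add up to at most `M`. -/
def Cover {m d : ℕ} (S : Set (Fin m ⊕ Fin d → ℝ)) (N : ℕ) (M : ℝ≥0∞) (A : Set (Fin d → ℝ)) :
    Prop :=
  ∃ B : Fin N → Set (Fin d → ℝ), (∀ j, Piece S (B j)) ∧ A ⊆ ⋃ j, B j ∧ ∑ j, volume (B j) ≤ M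

/-- For every `r > 0`, almost every slice of `{|f| > r}` is covered by `N` pieces of total volume
at most `M` times its volume. -/
def Sliced {m d : ℕ} (S : Set (Fin m ⊕ Fin d → ℝ)) (N : ℕ) (M : ℝ≥0∞) (f : Space d → ℝ) : Prop :=
  ∀ r : ℝ, 0 < r → ∀ᵐ t : ℝ,
    Cover S N (M * volume (slice {x | r < |f x|} t)) (slice {x | r < |f x|} t)

/-- The closed tube of length `1` and radius `δ` with centre `b` and axis direction `e`. -/
def tube {d : ℕ} (δ : ℝ) (e b : Space d) : Set (Space d) :=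
  {y | |inner ℝ (y - b) e| ≤ 1 / 2 ∧ ‖(y - b) - (inner ℝ (y - b) e : ℝ) • e‖ ≤ δ}

/-- The Kakeya maximal function. -/
noncomputable def kakeyaMax {d : ℕ} (δ : ℝ) (f : Space d → ℝ) (e : Space d) : ℝ≥0∞ :=
  ⨆ a : Space d, (volume (tube δ e a))⁻¹ * ∫⁻ y in tube δ e a, ‖f y‖ₑ

/-- The integral of `|f|` over the unit segment of direction `e` with midpoint `b`. -/
noncomputable def segmentIntegral {d : ℕ} (f : Space d → ℝ) (b e : Space d) : ℝ≥0∞ :=
  ∫⁻ s in Icc (-(1 / 2) : ℝ) (1 / 2), ‖f (b + s • e)‖ₑ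

/-- The directions `e` with `|e 0| ≥ κ`. -/
def Steep (d : ℕ) (κ : ℝ) : Set (Direction d) := {e | κ ≤ |(e : Space d) 0|}

/-- **Kakeya maximal estimates for functions with tame slices.**  Let `n = d + 1 ≥ 2`.  There are
constants `C p` (depending on `n` and `p`) such that for every o-minimal expansion of the real field
and every definable family `S` of subsets of `ℝ^d` there is a number `Λ` with:

1. for `p > n`, all `f` in the class given by `S`, `N` and `M`, all `0 < κ ≤ 1`, all measurable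
  choices `b` of midpoints and all `0 < δ ≤ 1`,
  `∫_{|e 0| ≥ κ} (∫_{segment of midpoint b e and direction e} |f|)^p ≤
    C (1 + log (1/κ)) N^d Λ M ∫ |f|^p`,
  `∫_{|e 0| ≥ κ} (f^*_δ)^p ≤ C (1 + log (1/κ)) N^d Λ M ∫ |f|^p`;
2. `∫ (f^*_δ)^n ≤ C (1 + log (1/δ))^(2n+1) N^d Λ M ∫ |f|^n` for all `f` in the class given by `S`,
  `N ≥ 1` and `M ≥ 1` and all `0 < δ < 1`; here the integral on the left is over the whole sphere. -/
theorem result (d : ℕ) (hd : 1 ≤ d) : ∃ C : ℝ → ℝ, (∀ p, 0 < C p) ∧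
    ∀ (L : FirstOrder.Language.{u, v}) [L.Structure ℝ], OMinimal L →
    ∀ (m : ℕ) (S : Set (Fin m ⊕ Fin d → ℝ)), (univ : Set ℝ).Definable L S →
    ∃ Λ : ℕ, ∀ (f : Space d → ℝ) (N : ℕ) (M : ℝ≥0∞), Measurable f → Sliced S N M f →
    (∀ p κ : ℝ, (d:ℝ) + 1 < p → 0 < κ → κ ≤ 1 →
      (∀ b : Space d → Space d, Measurable b →
        ∫⁻ e in Steep d κ, segmentIntegral f (b e) e ^ p ∂(surf d) ≤
          ENNReal.ofReal (C p * (1 + Real.log (1 / κ))) *
            ((N:ℝ≥0∞) ^ d * Λ * M * ∫⁻ x, ‖f x‖ₑ ^ p)) ∧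
      (∀ δ : ℝ, 0 < δ → δ ≤ 1 →
        ∫⁻ e in Steep d κ, kakeyaMax δ f e ^ p ∂(surf d) ≤
          ENNReal.ofReal (C p * (1 + Real.log (1 / κ))) *
            ((N:ℝ≥0∞) ^ d * Λ * M * ∫⁻ x, ‖f x‖ₑ ^ p))) ∧
    (∀ δ : ℝ, 1 ≤ N → 1 ≤ M → 0 < δ → δ < 1 →
      ∫⁻ e : Direction d, kakeyaMax δ f e ^ (d + 1) ∂(surf d) ≤
        ENNReal.ofReal (C ((d:ℝ) + 1) * (1 + Real.log (1 / δ)) ^ (2 * d + 3)) *
          ((N:ℝ≥0∞) ^ d * Λ * M * ∫⁻ x, ‖f x‖ₑ ^ (d + 1))) := by
  classical
  have h1 : ∀ p : ℝ, ∃ C : ℝ, 0 < C ∧ ((d:ℝ) + 1 < p →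
      ∀ (Cv : ℝ≥0∞ → Set (Fin d → ℝ) → Prop) (Λ : ℝ≥0∞), Pool.Agent.TH539.SA.Vel d Λ Cv →
      ∀ (f : EuclideanSpace ℝ (Fin (d + 1)) → ℝ) (M : ℝ≥0∞) (κ : ℝ), Measurable f →
      Pool.Agent.TH539.Gen.ASlicedBy Cv M f → 0 < κ → κ ≤ 1 →
      (∀ b : Space d → Space d, Measurable b →
        ∫⁻ e in Steep d κ, segmentIntegral f (b e) e ^ p ∂(surf d) ≤
          ENNReal.ofReal (C * (1 + Real.log (1 / κ))) * (Λ * M * ∫⁻ x, ‖f x‖ₑ ^ p)) ∧
      (∀ δ : ℝ, 0 < δ → δ ≤ 1 →
        ∫⁻ e in Steep d κ, kakeyaMax δ f e ^ p ∂(surf d) ≤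
          ENNReal.ofReal (C * (1 + Real.log (1 / κ))) * (Λ * M * ∫⁻ x, ‖f x‖ₑ ^ p))) := by
    intro p
    by_cases hp : (d:ℝ) + 1 < p
    · obtain ⟨C1, hC1, h1⟩ := Pool.Agent.TH539.Gen.strongSeg hd hp
      obtain ⟨C2, hC2, h2⟩ := Pool.Agent.TH539.Gen.strongP hd hp
      refine ⟨max C1 C2, lt_max_of_lt_left hC1, fun _ => ?_⟩
      intro Cv Λ hV f M κ hf hcov hκ hκ1
      have hlog : 0 ≤ Real.log (1 / κ) := Real.log_nonneg (by rw [le_div_iff₀ hκ]; linarith)
      refine ⟨fun b hb => ?_, fun δ hδ hδ1 => ?_⟩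
      · refine (h1 Cv Λ hV f M κ b hf hcov hκ hκ1 hb).trans ?_
        gcongr
        exact le_max_left _ _
      · refine (h2 Cv Λ hV f M κ δ hf hcov hκ hκ1 hδ hδ1).trans ?_
        gcongr
        exact le_max_right _ _
    · exact ⟨1, one_pos, fun h => absurd h hp⟩
  choose C hC hstrong using h1
  obtain ⟨C0, hC0, hcrit⟩ := Pool.Agent.TH539.Gen.crit hd
  refine ⟨fun p => max (C p) C0, fun p => lt_max_of_lt_left (hC p), ?_⟩
  intro L _ hL m S hS
  have : OMin L := ⟨hL.lt, hL.add, hL.mul, hL.finite_union⟩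
  have hSD : DPred L (fun z : Fin m ⊕ Fin d → ℝ => z ∈ S) := hS
  obtain ⟨Λ, hΛ1, hΛ⟩ := Run7.h860.Kk.cover_vel (L := L) hd hSD
  refine ⟨Λ, fun f N M hf hsl => ⟨fun p κ hp hκ hκ1 => ?_, fun δ hN hM hδ hδ1 => ?_⟩⟩
  · have hlog : 0 ≤ Real.log (1 / κ) := Real.log_nonneg (by rw [le_div_iff₀ hκ]; linarith)
    obtain ⟨g1, g2⟩ := hstrong p hp _ _ (hΛ N) f M κ hf hsl hκ hκ1
    refine ⟨fun b hb => (g1 b hb).trans ?_, fun δ hδ hδ1 => (g2 δ hδ hδ1).trans ?_⟩
    · gcongr
      exact le_max_left _ _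
    · gcongr
      exact le_max_left _ _
  · have hlog : 0 ≤ Real.log (1 / δ) := Real.log_nonneg (by rw [le_div_iff₀ hδ]; linarith)
    have hone : (1:ℝ≥0∞) ≤ (N:ℝ≥0∞) ^ d * (Λ : ℝ≥0∞) := by
      calc (1:ℝ≥0∞) = 1 * 1 := (one_mul 1).symm
        _ ≤ _ := mul_le_mul' (one_le_pow₀ (by exact_mod_cast hN)) (by exact_mod_cast hΛ1)
    refine (hcrit _ _ (hΛ N) (Run7.h860.Kk.cover_empty S N) f M δ hf hsl hone hM hδ hδ1).trans ?_
    gcongr
    exact le_max_right _ _

end Pool.Agent.Results.MP_5168f5_an.TameSlicedFunctions
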